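import Mathlib

/-!
# Derivations given by ring homomorphisms to dual numbers; Jacobi's formula
-/

namespace Pool.Agent.H53R3

section

variable {K : Type*} [Field K]

/-- A derivation of a field, given as a map. -/
structure IsDer (D : K → K) : Prop where
  add : ∀ a b, D (a + b) = D a + D b
  mul : ∀ a b, D (a * b) = D a * b + a * D b

namespace IsDer

variable {D : K → K} (h : IsDer D)

include h

lemma zero : D 0 = 0 := by
  have := h.add 0 0
  simpa using this

lemma one : D 1 = 0 := by
  have := h.mul 1 1
  simpa using this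

lemma neg (a : K) : D (-a) = -D a := by
  have := h.add a (-a)
  rw [add_neg_cancel, h.zero] at this
  exact eq_neg_of_add_eq_zero_right this.symm

lemma sub (a b : K) : D (a - b) = D a - D b := by
  rw [sub_eq_add_neg, h.add, h.neg, ← sub_eq_add_neg]

lemma sum {ι : Type*} (s : Finset ι) (f : ι → K) : D (∑ t ∈ s, f t) = ∑ t ∈ s, D (f t) := by
  classical
  induction s using Finset.induction_on with
  | empty => simpa using h.zero
  | insert a s ha ih => rw [Finset.sum_insert ha, h.add, ih, Finset.sum_insert ha]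

end IsDer

/-- The entrywise derivative of a matrix. -/
def dMat {n : ℕ} (D : K → K) (A : Matrix (Fin n) (Fin n) K) : Matrix (Fin n) (Fin n) K := A.map D

namespace IsDer

variable {D : K → K} (h : IsDer D) {n : ℕ}

include h

lemma dMat_mul (A B : Matrix (Fin n) (Fin n) K) :
    dMat D (A * B) = dMat D A * B + A * dMat D B := by
  refine Matrix.ext fun k l => ?_
  simp only [dMat, Matrix.map_apply, Matrix.mul_apply, Matrix.add_apply, h.sum, h.mul,
    Finset.sum_add_distrib]

lemma dMat_add (A B : Matrix (Fin n) (Fin n) K) : dMat D (A + B) = dMat D A + dMat D B := by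
  refine Matrix.ext fun k l => ?_
  simp only [dMat, Matrix.map_apply, Matrix.add_apply, h.add]

lemma dMat_neg (A : Matrix (Fin n) (Fin n) K) : dMat D (-A) = -dMat D A := by
  refine Matrix.ext fun k l => ?_
  simp only [dMat, Matrix.map_apply, Matrix.neg_apply, h.neg]

lemma trace (A : Matrix (Fin n) (Fin n) K) : D A.trace = (dMat D A).trace := by
  simp only [Matrix.trace, Matrix.diag_apply, h.sum, dMat, Matrix.map_apply]

lemma dMat_one : dMat D (1 : Matrix (Fin n) (Fin n) K) = 0 := by
  refine Matrix.ext fun k l => ?_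
  simp only [dMat, Matrix.map_apply, Matrix.zero_apply, Matrix.one_apply]
  split_ifs
  · exact h.one
  · exact h.zero

/-- Derivative of the inverse. -/
lemma dMat_inv (A : Matrix (Fin n) (Fin n) K) (hA : IsUnit A.det) :
    dMat D A⁻¹ = -(A⁻¹ * dMat D A * A⁻¹) := by
  have h1 : dMat D (A⁻¹ * A) = 0 := by rw [Matrix.nonsing_inv_mul A hA, h.dMat_one]
  rw [h.dMat_mul] at h1
  have h2 : dMat D A⁻¹ * A * A⁻¹ = dMat D A⁻¹ := by
    rw [mul_assoc, Matrix.mul_nonsing_inv A hA, mul_one]
  rw [← h2, eq_neg_of_add_eq_zero_left h1, neg_mul]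

/-- The derivation as a homomorphism to dual numbers. -/
def toDual : K →+* DualNumber K where
  toFun := fun z => TrivSqZeroExt.inl z + TrivSqZeroExt.inr (D z)
  map_one' := by rw [h.one]; simp
  map_mul' := fun a b => by
    refine TrivSqZeroExt.ext ?_ ?_
    · simp
    · simp only [TrivSqZeroExt.snd_add, TrivSqZeroExt.snd_inl, TrivSqZeroExt.snd_inr, zero_add,
        TrivSqZeroExt.snd_mul, TrivSqZeroExt.fst_add, TrivSqZeroExt.fst_inl, TrivSqZeroExt.fst_inr,
        add_zero, h.mul, smul_eq_mul, MulOpposite.smul_eq_mul_unop, MulOpposite.unop_op]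
      ring
  map_zero' := by rw [h.zero]; simp
  map_add' := fun a b => by
    refine TrivSqZeroExt.ext ?_ ?_
    · simp
    · simp [h.add]

lemma toDual_apply (z : K) : h.toDual z = TrivSqZeroExt.inl z + TrivSqZeroExt.inr (D z) := rfl

/-- Jacobi's formula. -/
lemma det (A : Matrix (Fin n) (Fin n) K) (hA : IsUnit A.det) :
    D A.det = A.det * (A⁻¹ * dMat D A).trace := by
  set J : K →+* DualNumber K := TrivSqZeroExt.inlHom K K with hJ
  set ε : DualNumber K := DualNumber.eps with hε
  have hεε : ε * ε = 0 := DualNumber.eps_mul_eps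
  have h1 : A.map h.toDual = A.map J + ε • (dMat D A).map J := by
    refine Matrix.ext fun k l => ?_
    simp only [Matrix.map_apply, Matrix.add_apply, Matrix.smul_apply, smul_eq_mul, dMat,
      h.toDual_apply]
    refine TrivSqZeroExt.ext ?_ ?_
    · simp [hJ, hε]
    · simp [hJ, hε]
  have h2 : A.map h.toDual = A.map J * (1 + ε • (A⁻¹ * dMat D A).map J) := by
    rw [h1, mul_add, mul_one, Matrix.mul_smul, ← Matrix.map_mul, ← mul_assoc,
      Matrix.mul_nonsing_inv A hA, one_mul]
  have h3 : h.toDual A.det = J A.det * (1 + J (A⁻¹ * dMat D A).trace * ε) := by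
    rw [RingHom.map_det, RingHom.mapMatrix_apply, h2, Matrix.det_mul, Matrix.det_one_add_smul]
    have e1 : (A.map J).det = J A.det := by
      rw [RingHom.map_det, RingHom.mapMatrix_apply]
    have e2 : ((A⁻¹ * dMat D A).map J).trace = J (A⁻¹ * dMat D A).trace := by
      simp only [Matrix.trace, Matrix.diag_apply, Matrix.map_apply, map_sum]
    rw [e1, e2, pow_two, hεε, mul_zero, add_zero]
  have h4 := congrArg TrivSqZeroExt.snd h3
  rw [h.toDual_apply] at h4
  simpa [hJ, hε] using h4

end IsDer

end

end Pool.Agent.H53R3
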